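import Pool.Agent.Helper42.RZ.St.S1

/-! # RZ-S3: the law of the distance -/

set_option autoImplicit false

open MeasureTheory Set Metric Filter Topology
open scoped ENNReal

namespace Pool.Agent.Helper28.RZ

open Pool.Agent.Helper42.RZ

/-- the north pole -/
noncomputable def np : E3 := pt (0, 1)

theorem norm_np : ‖np‖ = 1 := norm_pt (by simp)

theorem norm_np_sub_pt {v : ℝ × ℝ} (hv : |v.2| ≤ 1) : ‖np - pt v‖ = Real.sqrt (2 - 2 * v.2) := by
  have h1 : inner ℝ np (pt v) = v.2 := by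
    simp [np, pt, PiLp.inner_apply, Fin.sum_univ_three]
  have h2 := norm_sub_sq_real np (pt v)
  rw [norm_np, norm_pt hv, h1] at h2
  have h3 : ‖np - pt v‖ ^ 2 = 2 - 2 * v.2 := by
    rw [h2]; ring
  rw [← h3, Real.sqrt_sq (norm_nonneg _)]

theorem image_f : (fun r : ℝ => 1 - r ^ 2 / 2) '' Ioo 0 2 = Ioo (-1) 1 := by
  ext z
  constructor
  · rintro ⟨r, ⟨h1, h2⟩, rfl⟩
    constructor
    · simp only; nlinarith
    · simp only; nlinarith
  · rintro ⟨h1, h2⟩
    have h3 : 0 < 2 - 2 * z := by linarith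
    refine ⟨Real.sqrt (2 - 2 * z), ⟨Real.sqrt_pos.2 h3, ?_⟩, ?_⟩
    · rw [Real.sqrt_lt' (by norm_num)]
      linarith
    · simp only
      rw [Real.sq_sqrt h3.le]
      ring

theorem change_var (G : ℝ → ℝ≥0∞) : ∫⁻ z in Ioo (-1 : ℝ) 1, G z =
    ∫⁻ r in Ioo (0 : ℝ) 2, ENNReal.ofReal r * G (1 - r ^ 2 / 2) := by
  have h := lintegral_image_eq_lintegral_abs_deriv_mul (s := Ioo (0 : ℝ) 2)
    (f := fun r : ℝ => 1 - r ^ 2 / 2) (f' := fun r => -r) measurableSet_Ioo ?_ ?_ G
  · rw [image_f] at h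
    rw [h]
    refine setLIntegral_congr_fun measurableSet_Ioo fun r hr => ?_
    rw [abs_neg, abs_of_pos hr.1]
  · intro r _
    have h1 : HasDerivAt (fun r : ℝ => 1 - r ^ 2 / 2) (0 - (2 : ℕ) * r ^ (2 - 1) / 2) r :=
      (hasDerivAt_const r (1 : ℝ)).sub ((hasDerivAt_pow 2 r).div_const 2)
    have h2 : (0 - ((2 : ℕ) : ℝ) * r ^ (2 - 1) / 2) = -r := by
      norm_num
    rw [h2] at h1
    exact h1.hasDerivWithinAt
  · intro r hr r' hr' h
    simp only at h
    have h1 : r ^ 2 = r' ^ 2 := by linarith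
    exact (pow_left_inj₀ hr.1.le hr'.1.le (by norm_num)).1 h1

theorem lintegral_dist_np {k : ℝ → ℝ≥0∞} (hk : Measurable k) :
    ∫⁻ y, k ‖np - y‖ ∂sig = ∫⁻ r in Ioo (0 : ℝ) 2, ENNReal.ofReal (r / 2) * k r := by
  have hm : Measurable fun y : E3 => k ‖np - y‖ := by fun_prop
  rw [sig, lintegral_map hm measurable_pt, lintegral_smul_measure]
  have h1 : ∫⁻ v in Q0, k ‖np - pt v‖ = ∫⁻ v in Q0, k (Real.sqrt (2 - 2 * v.2)) := by
    refine setLIntegral_congr_fun measurableSet_Q0 fun v hv => ?_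
    rw [norm_np_sub_pt (abs_lt.2 ⟨hv.2.1, hv.2.2⟩).le]
  have hm2 : Measurable fun z : ℝ => k (Real.sqrt (2 - 2 * z)) := by fun_prop
  rw [h1, Q0, Measure.volume_eq_prod, ← Measure.prod_restrict,
    lintegral_prod_symm' _ (by fun_prop)]
  simp only [lintegral_const, Measure.restrict_apply MeasurableSet.univ, univ_inter,
    Real.volume_Ioc]
  rw [lintegral_mul_const _ hm2, change_var]
  have h2 : ∫⁻ r in Ioo (0 : ℝ) 2, ENNReal.ofReal r * k (Real.sqrt (2 - 2 * (1 - r ^ 2 / 2))) =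
      2 * ∫⁻ r in Ioo (0 : ℝ) 2, ENNReal.ofReal (r / 2) * k r := by
    rw [← lintegral_const_mul _ (by fun_prop)]
    refine setLIntegral_congr_fun measurableSet_Ioo fun r hr => ?_
    rw [show 2 - 2 * (1 - r ^ 2 / 2) = r ^ 2 by ring, Real.sqrt_sq hr.1.le, ← mul_assoc]
    congr 1
    rw [show (2 : ℝ≥0∞) = ENNReal.ofReal 2 by norm_num, ← ENNReal.ofReal_mul (by norm_num)]
    congr 1
    ring
  rw [h2, smul_eq_mul]
  have h3 : ENNReal.ofReal (4 * Real.pi) = 2 * ENNReal.ofReal (Real.pi - -Real.pi) := by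
    rw [show (2 : ℝ≥0∞) = ENNReal.ofReal 2 by norm_num, ← ENNReal.ofReal_mul (by norm_num)]
    congr 1
    ring
  have h4 : ENNReal.ofReal (4 * Real.pi) ≠ 0 := by
    rw [Ne, ENNReal.ofReal_eq_zero, not_le]
    have := Real.pi_pos
    linarith
  calc (ENNReal.ofReal (4 * Real.pi))⁻¹ *
        (2 * (∫⁻ r in Ioo (0 : ℝ) 2, ENNReal.ofReal (r / 2) * k r) *
          ENNReal.ofReal (Real.pi - -Real.pi))
      = ((ENNReal.ofReal (4 * Real.pi))⁻¹ * (2 * ENNReal.ofReal (Real.pi - -Real.pi))) *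
          ∫⁻ r in Ioo (0 : ℝ) 2, ENNReal.ofReal (r / 2) * k r := by ring
    _ = ∫⁻ r in Ioo (0 : ℝ) 2, ENNReal.ofReal (r / 2) * k r := by
      rw [← h3, ENNReal.inv_mul_cancel h4 ENNReal.ofReal_ne_top, one_mul]

theorem lintegral_dist {x : E3} (hx : ‖x‖ = 1) {k : ℝ → ℝ≥0∞} (hk : Measurable k) :
    ∫⁻ y, k ‖x - y‖ ∂sig = ∫⁻ r in Ioo (0 : ℝ) 2, ENNReal.ofReal (r / 2) * k r := by
  rw [← lintegral_dist_np hk]
  have hn : ‖np‖ = ‖x‖ := by rw [norm_np, hx]
  let g : E3 ≃ₗᵢ[ℝ] E3 := Submodule.reflection (ℝ ∙ (np - x))ᗮ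
  have hg : g np = x := Submodule.reflection_sub hn
  have hm : Measurable fun y : E3 => k ‖x - y‖ := by fun_prop
  conv_lhs => rw [← map_sig g]
  rw [lintegral_map hm g.continuous.measurable]
  refine lintegral_congr fun y => ?_
  rw [← hg, ← map_sub, g.norm_map]

theorem map_dist {x : E3} (hx : ‖x‖ = 1) : Measure.map (fun y => ‖x - y‖) sig =
    ((volume : Measure ℝ).restrict (Ioo 0 2)).withDensity (fun r => ENNReal.ofReal (r / 2)) := by
  have hm : Measurable fun y : E3 => ‖x - y‖ := by fun_prop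
  ext B hB
  have h := lintegral_dist hx (k := B.indicator 1) (measurable_one.indicator hB)
  rw [Measure.map_apply hm hB, withDensity_apply _ hB]
  have h1 : ∫⁻ y, B.indicator 1 ‖x - y‖ ∂sig = sig ((fun y => ‖x - y‖) ⁻¹' B) := by
    rw [← lintegral_indicator_one (hm hB)]
    rfl
  rw [← h1, h, ← lintegral_indicator hB]
  refine lintegral_congr fun r => ?_
  by_cases hr : r ∈ B
  · simp [hr]
  · simp [hr]

theorem ae_lt : ∀ᵐ r ∂((volume : Measure ℝ).restrict (Ioo 0 2)),
    ENNReal.ofReal (r / 2) < ∞ := Filter.Eventually.of_forall fun _ => ENNReal.ofReal_lt_top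

theorem ae_eq (k : ℝ → ℝ) : (fun r => (ENNReal.ofReal (r / 2)).toReal • k r)
    =ᵐ[(volume : Measure ℝ).restrict (Ioo 0 2)] fun r => k r * (r / 2) := by
  refine (ae_restrict_iff' measurableSet_Ioo).2 (Filter.Eventually.of_forall fun r hr => ?_)
  simp only
  rw [ENNReal.toReal_ofReal (by have := hr.1; linarith), smul_eq_mul, mul_comm]

theorem integrable_dist {x : E3} (hx : ‖x‖ = 1) {k : ℝ → ℝ} (hk : Measurable k) :
    Integrable (fun y => k ‖x - y‖) sig ↔ IntegrableOn (fun r => k r * (r / 2)) (Ioo 0 2) := by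
  have hm : Measurable fun y : E3 => ‖x - y‖ := by fun_prop
  have h1 : Integrable (fun y => k ‖x - y‖) sig ↔
      Integrable k (Measure.map (fun y => ‖x - y‖) sig) :=
    (integrable_map_measure hk.aestronglyMeasurable hm.aemeasurable).symm
  rw [h1, map_dist hx, integrable_withDensity_iff_integrable_smul' (by fun_prop) ae_lt]
  exact integrable_congr (ae_eq k)

theorem integral_dist {x : E3} (hx : ‖x‖ = 1) {k : ℝ → ℝ} (hk : Measurable k) :
    ∫ y, k ‖x - y‖ ∂sig = bg k := by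
  have hm : Measurable fun y : E3 => ‖x - y‖ := by fun_prop
  have h1 : ∫ y, k ‖x - y‖ ∂sig = ∫ r, k r ∂(Measure.map (fun y => ‖x - y‖) sig) :=
    (integral_map hm.aemeasurable hk.aestronglyMeasurable).symm
  rw [h1, map_dist hx, integral_withDensity_eq_integral_toReal_smul (by fun_prop) ae_lt,
    integral_congr_ae (ae_eq k), bg, intervalIntegral.integral_of_le (by norm_num),
    integral_Ioc_eq_integral_Ioo]

theorem sig_singleton (x : E3) : sig {x} = 0 := by
  by_cases hx : ‖x‖ = 1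
  · have hm : Measurable fun y : E3 => ‖x - y‖ := by fun_prop
    have h1 : Measure.map (fun y => ‖x - y‖) sig {0} = 0 := by
      rw [map_dist hx]
      refine withDensity_absolutelyContinuous _ _ ?_
      rw [Measure.restrict_apply (measurableSet_singleton _)]
      exact measure_mono_null inter_subset_left Real.volume_singleton
    rw [Measure.map_apply hm (measurableSet_singleton _)] at h1
    refine measure_mono_null ?_ h1
    rintro y rfl
    simp
  · have h1 := ae_norm_sig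
    rw [ae_iff] at h1
    refine measure_mono_null ?_ h1
    rintro y rfl
    exact hx

end Pool.Agent.Helper28.RZ
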